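import Pool.Agent.Helper90.SH.FSDefs

/-!
# MP_506470_co : module FSk (Option 1 is impossible)
-/

namespace SetHom
namespace FS

variable {V : Type*} {G : SimpleGraph V} {K : List V → Prop}

/-- Step 1: the first configuration. -/
theorem fsk_step1 (hm : MC G K) (h1 : Opt1 G K) :
    ∃ x1 x2 x3 x4 u v z, K [x1, x2, x3, x4] ∧ G.Adj u v ∧ G.Adj u x1 ∧ G.Adj u x2 ∧ G.Adj v x1 ∧
      G.Adj v x2 ∧ ¬ G.Adj u x3 ∧ ¬ G.Adj u x4 ∧ ¬ G.Adj v x3 ∧ ¬ G.Adj v x4 ∧
      G.Adj z x2 ∧ K [u, z, x3, x4] ∧ K [v, z, x3, x4] := by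
  obtain ⟨l, hl, hlen⟩ := hm.gl.long 4
  match l, hlen with
  | [x1, x2, x3, x4], _ =>
  obtain ⟨z, hz1, hz2⟩ := hm.init [x1, x2] [x3, x4] hl
  simp only [List.mem_cons, List.not_mem_nil, or_false, forall_eq_or_imp, forall_eq] at hz1 hz2
  have hKz : K [z, x3, x4] := h1 [x1, x2] [x3, x4] z hl (by simp) (by simp)
    (by simpa using hz1) (by simpa using ⟨hz2.1.2, hz2.2.2⟩)
  obtain ⟨m, hm1, hm2⟩ := hm.gl.ins (a := []) (b := [z, x3, x4]) (by simpa using hKz) 1
  match m, hm1 with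
  | [u], _ =>
  have hKu : K [u, z, x3, x4] := by simpa using hm2
  obtain ⟨v, hv1, hv2⟩ := hm.init [u] [z, x3, x4] (by simpa using hKu)
  simp only [List.mem_cons, List.not_mem_nil, or_false, forall_eq_or_imp, forall_eq] at hv1 hv2
  have hKv : K [v, z, x3, x4] := h1 [u] [z, x3, x4] v (by simpa using hKu) (by simp) (by simp)
    (by simpa using hv1) (by simpa using ⟨hv2.1.2, hv2.2.1.2, hv2.2.2.2⟩)
  have hind := hm.gl.ind _ hl
  have hindu := hm.gl.ind _ hKu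
  have hindv := hm.gl.ind _ hKv
  have hKu3 : K [u, z, x3] := hm.gl.sub _ _ hKu (by simp)
  have hKv3 : K [v, z, x3] := hm.gl.sub _ _ hKv (by simp)
  have a1 : ¬ G.Adj x1 x3 := hind x1 (by simp) x3 (by simp)
  have a2 : ¬ G.Adj x2 x3 := hind x2 (by simp) x3 (by simp)
  have b1 : G.Adj x1 u := by
    by_contra h
    exact (hm.mono _ _ _ x1 hKu3).2 ⟨h, hz1.1.symm, a1⟩
  have b2 : G.Adj x2 u := by
    by_contra h
    exact (hm.mono _ _ _ x2 hKu3).2 ⟨h, hz1.2.symm, a2⟩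
  have c1 : G.Adj x1 v := by
    by_contra h
    exact (hm.mono _ _ _ x1 hKv3).2 ⟨h, hz1.1.symm, a1⟩
  have c2 : G.Adj x2 v := by
    by_contra h
    exact (hm.mono _ _ _ x2 hKv3).2 ⟨h, hz1.2.symm, a2⟩
  exact ⟨x1, x2, x3, x4, u, v, z, hl, hv1.symm, b1.symm, b2.symm, c1.symm, c2.symm,
    hindu u (by simp) x3 (by simp), hindu u (by simp) x4 (by simp),
    hindv v (by simp) x3 (by simp), hindv v (by simp) x4 (by simp), hz1.2, hKu, hKv⟩

/-- Step 2: the second configuration. -/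
theorem fsk_step2 (hm : MC G K) (h1 : Opt1 G K) :
    ∃ x1 x2 x3 x4 u v z, K [x1, x2, z, x3, x4] ∧ G.Adj u v ∧ G.Adj u x1 ∧ G.Adj u x2 ∧
      G.Adj v x1 ∧ G.Adj v x2 ∧ ¬ G.Adj u x3 ∧ ¬ G.Adj u x4 ∧ ¬ G.Adj v x3 ∧ ¬ G.Adj v x4 ∧
      ¬ G.Adj z u ∧ G.Adj z v := by
  obtain ⟨l, hl, hlen⟩ := hm.gl.long 5
  match l, hlen with
  | [x1, x2, z, x3, x4], _ =>
  obtain ⟨u, hu1, hu2⟩ := hm.init [x1, x2] [z, x3, x4] hl
  obtain ⟨v, hv1, hv2⟩ := hm.init [x1, x2, z] [x3, x4] hl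
  simp only [List.mem_cons, List.not_mem_nil, or_false, forall_eq_or_imp, forall_eq] at hu1 hu2 hv1 hv2
  have hKu : K [u, z, x3, x4] := h1 [x1, x2] [z, x3, x4] u hl (by simp) (by simp)
    (by simpa using hu1) (by simpa using ⟨hu2.1.2, hu2.2.1.2, hu2.2.2.2⟩)
  have hKu3 : K [u, z, x3] := hm.gl.sub _ _ hKu (by simp)
  have huv : G.Adj v u := by
    by_contra h
    exact (hm.mono _ _ _ v hKu3).2 ⟨h, hv1.2.2, hv2.1.2⟩
  exact ⟨x1, x2, x3, x4, u, v, z, hl, huv.symm, hu1.1, hu1.2, hv1.1, hv1.2.1, hu2.2.1.2,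
    hu2.2.2.2, hv2.1.2, hv2.2.2, fun h => hu2.1.2 h.symm, hv1.2.2.symm⟩

/-- Step 3: the automorphism from the second configuration to the first one. -/
theorem fsk_step3 (hm : MC G K) {x1 x2 x3 x4 u v y1 y2 y3 y4 s t : V}
    (hK : K [x1, x2, x3, x4]) (huv : G.Adj u v) (hu1 : G.Adj u x1) (hu2 : G.Adj u x2)
    (hv1 : G.Adj v x1) (hv2 : G.Adj v x2) (hu3 : ¬ G.Adj u x3) (hu4 : ¬ G.Adj u x4)
    (hv3 : ¬ G.Adj v x3) (hv4 : ¬ G.Adj v x4)
    (hK' : K [y1, y2, y3, y4]) (hst : G.Adj s t) (hs1 : G.Adj s y1) (hs2 : G.Adj s y2)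
    (ht1 : G.Adj t y1) (ht2 : G.Adj t y2) (hs3 : ¬ G.Adj s y3) (hs4 : ¬ G.Adj s y4)
    (ht3 : ¬ G.Adj t y3) (ht4 : ¬ G.Adj t y4) :
    ∃ φ : G ≃g G, φ x1 = y1 ∧ φ x2 = y2 ∧ φ x3 = y3 ∧ φ x4 = y4 ∧
      ((φ u = s ∧ φ v = t) ∨ (φ u = t ∧ φ v = s)) := by
  have X := hm.gl.ind _ hK
  have Y := hm.gl.ind _ hK'
  have XN := hm.gl.nodup _ hK
  have YN := hm.gl.nodup _ hK'
  simp only [List.mem_cons, List.not_mem_nil, or_false, forall_eq_or_imp, forall_eq] at X Y
  obtain ⟨⟨-, X12, X13, X14⟩, ⟨X21, -, X23, X24⟩, ⟨X31, X32, -, X34⟩, X41, X42, X43, -⟩ := X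
  obtain ⟨⟨-, Y12, Y13, Y14⟩, ⟨Y21, -, Y23, Y24⟩, ⟨Y31, Y32, -, Y34⟩, Y41, Y42, Y43, -⟩ := Y
  have ne_of : ∀ {a b c : V}, G.Adj a c → ¬ G.Adj b c → a ≠ b := by
    rintro a b c h1 h2 rfl
    exact h2 h1
  have hu3' : ¬ G.Adj x3 u := fun h => hu3 h.symm
  have hu4' : ¬ G.Adj x4 u := fun h => hu4 h.symm
  have hv3' : ¬ G.Adj x3 v := fun h => hv3 h.symm
  have hv4' : ¬ G.Adj x4 v := fun h => hv4 h.symm
  have hs3' : ¬ G.Adj y3 s := fun h => hs3 h.symm
  have hs4' : ¬ G.Adj y4 s := fun h => hs4 h.symm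
  have ht3' : ¬ G.Adj y3 t := fun h => ht3 h.symm
  have ht4' : ¬ G.Adj y4 t := fun h => ht4 h.symm
  have nl : [x1, x2, x3, x4, u, v].Nodup := by
    have n1 : u ≠ x1 := hu1.ne
    have n2 : u ≠ x2 := hu2.ne
    have n3 : u ≠ x3 := ne_of hu1 X31
    have n4 : u ≠ x4 := ne_of hu1 X41
    have m1 : v ≠ x1 := hv1.ne
    have m2 : v ≠ x2 := hv2.ne
    have m3 : v ≠ x3 := ne_of hv1 X31
    have m4 : v ≠ x4 := ne_of hv1 X41
    simp only [List.nodup_cons, List.mem_cons, List.not_mem_nil, or_false, not_or,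
      List.nodup_nil, and_true, not_false_eq_true] at XN ⊢
    exact ⟨⟨XN.1.1, XN.1.2.1, XN.1.2.2, n1.symm, m1.symm⟩, ⟨XN.2.1.1, XN.2.1.2, n2.symm, m2.symm⟩,
      ⟨XN.2.2, n3.symm, m3.symm⟩, ⟨n4.symm, m4.symm⟩, huv.ne⟩
  have nm : [y1, y2, y3, y4, s, t].Nodup := by
    have n1 : s ≠ y1 := hs1.ne
    have n2 : s ≠ y2 := hs2.ne
    have n3 : s ≠ y3 := ne_of hs1 Y31
    have n4 : s ≠ y4 := ne_of hs1 Y41
    have m1 : t ≠ y1 := ht1.ne
    have m2 : t ≠ y2 := ht2.ne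
    have m3 : t ≠ y3 := ne_of ht1 Y31
    have m4 : t ≠ y4 := ne_of ht1 Y41
    simp only [List.nodup_cons, List.mem_cons, List.not_mem_nil, or_false, not_or,
      List.nodup_nil, and_true, not_false_eq_true] at YN ⊢
    exact ⟨⟨YN.1.1, YN.1.2.1, YN.1.2.2, n1.symm, m1.symm⟩, ⟨YN.2.1.1, YN.2.1.2, n2.symm, m2.symm⟩,
      ⟨YN.2.2, n3.symm, m3.symm⟩, ⟨n4.symm, m4.symm⟩, hst.ne⟩
  obtain ⟨φ, hφ⟩ := sh_list hm.sh [x1, x2, x3, x4, u, v] [y1, y2, y3, y4, s, t] nl nm rfl (by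
    intro i hi _ j hj _
    simp only [List.length_cons, List.length_nil] at hi hj
    interval_cases i <;> interval_cases j <;>
      simp [X12, X13, X14, X21, X23, X24, X31, X32, X34, X41, X42, X43, Y12, Y13, Y14, Y21, Y23,
        Y24, Y31, Y32, Y34, Y41, Y42, Y43, huv, huv.symm, hu1, hu1.symm, hu2, hu2.symm, hv1,
        hv1.symm, hv2, hv2.symm, hu3, hu4, hv3, hv4, hu3', hu4', hv3', hv4', hst, hst.symm, hs1,
        hs1.symm, hs2, hs2.symm, ht1, ht1.symm, ht2, ht2.symm, hs3, hs4, ht3, ht4, hs3', hs4',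
        ht3', ht4'])
  simp only [List.mem_cons, List.not_mem_nil, or_false] at hφ
  have adj : ∀ {a b : V}, G.Adj (φ a) (φ b) ↔ G.Adj a b := φ.map_adj_iff
  have inj : ∀ {a b : V}, φ a = φ b → a = b := fun h => φ.injective h
  -- neighbours inside the second set
  have N1 : ∀ c, (c = y1 ∨ c = y2 ∨ c = y3 ∨ c = y4 ∨ c = s ∨ c = t) → G.Adj c y1 →
      c = s ∨ c = t := by
    rintro c (rfl | rfl | rfl | rfl | h | h) hc
    · exact absurd hc G.irrefl
    · exact absurd hc Y21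
    · exact absurd hc Y31
    · exact absurd hc Y41
    · exact Or.inl h
    · exact Or.inr h
  have N2 : ∀ c, (c = y1 ∨ c = y2 ∨ c = y3 ∨ c = y4 ∨ c = s ∨ c = t) → G.Adj c y2 →
      c = s ∨ c = t := by
    rintro c (rfl | rfl | rfl | rfl | h | h) hc
    · exact absurd hc Y12
    · exact absurd hc G.irrefl
    · exact absurd hc Y32
    · exact absurd hc Y42
    · exact Or.inl h
    · exact Or.inr h
  have N3 : ∀ c, (c = y1 ∨ c = y2 ∨ c = y3 ∨ c = y4 ∨ c = s ∨ c = t) → ¬ G.Adj c y3 := by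
    rintro c (rfl | rfl | rfl | rfl | rfl | rfl)
    · exact Y13
    · exact Y23
    · exact G.irrefl
    · exact Y43
    · exact hs3
    · exact ht3
  have N4 : ∀ c, (c = y1 ∨ c = y2 ∨ c = y3 ∨ c = y4 ∨ c = s ∨ c = t) → ¬ G.Adj c y4 := by
    rintro c (rfl | rfl | rfl | rfl | rfl | rfl)
    · exact Y14
    · exact Y24
    · exact Y34
    · exact G.irrefl
    · exact hs4
    · exact ht4
  have M1 := (hφ x1).2 (by simp)
  have M2 := (hφ x2).2 (by simp)
  have M3 := (hφ x3).2 (by simp)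
  have M4 := (hφ x4).2 (by simp)
  have Mu := (hφ u).2 (by simp)
  have Mv := (hφ v).2 (by simp)
  -- the isolated vertices
  have I : ∀ a, (a = x3 ∨ a = x4) → (φ a = y3 ∨ φ a = y4) := by
    intro a ha
    have hMa : φ a = y1 ∨ φ a = y2 ∨ φ a = y3 ∨ φ a = y4 ∨ φ a = s ∨ φ a = t := by
      rcases ha with rfl | rfl
      · exact M3
      · exact M4
    have hno : ∀ c, (c = y1 ∨ c = y2 ∨ c = y3 ∨ c = y4 ∨ c = s ∨ c = t) → ¬ G.Adj c (φ a) := by
      intro c hc hadj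
      have h2 := (hφ (φ.symm c)).1 (by simpa using hc)
      have h3 : G.Adj (φ.symm c) a := by
        rw [← adj]
        simpa using hadj
      rcases ha with rfl | rfl <;> rcases h2 with h | h | h | h | h | h <;> rw [h] at h3
      · exact X13 h3
      · exact X23 h3
      · exact G.irrefl h3
      · exact X43 h3
      · exact hu3 h3
      · exact hv3 h3
      · exact X14 h3
      · exact X24 h3
      · exact X34 h3
      · exact G.irrefl h3
      · exact hu4 h3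
      · exact hv4 h3
    rcases hMa with h | h | h | h | h | h
    · exact absurd (h ▸ hs1) (hno s (by simp))
    · exact absurd (h ▸ hs2) (hno s (by simp))
    · exact Or.inl h
    · exact Or.inr h
    · exact absurd (h ▸ hst.symm) (hno t (by simp))
    · exact absurd (h ▸ hst) (hno s (by simp))
  -- the vertices of degree three
  have D : ∀ a b, G.Adj a x1 → G.Adj a x2 → G.Adj a b → b ≠ x1 → b ≠ x2 →
      (φ a = y1 ∨ φ a = y2 ∨ φ a = y3 ∨ φ a = y4 ∨ φ a = s ∨ φ a = t) →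
      (φ b = y1 ∨ φ b = y2 ∨ φ b = y3 ∨ φ b = y4 ∨ φ b = s ∨ φ b = t) →
      (φ a = s ∨ φ a = t) := by
    intro a b h1 h2 h3 n1 n2 ha hb
    have n12 : x1 ≠ x2 := by
      intro h; simp [h] at XN
    have three : ∀ y, (∀ c, (c = y1 ∨ c = y2 ∨ c = y3 ∨ c = y4 ∨ c = s ∨ c = t) → G.Adj c y →
        c = s ∨ c = t) → φ a ≠ y := by
      intro y hy hay
      have e1 := hy _ M1 (hay ▸ (adj.2 h1).symm)
      have e2 := hy _ M2 (hay ▸ (adj.2 h2).symm)
      have e3 := hy _ hb (hay ▸ (adj.2 h3).symm)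
      rcases e1 with e1 | e1 <;> rcases e2 with e2 | e2 <;> rcases e3 with e3 | e3
      · exact n12 (inj (e1.trans e2.symm))
      · exact n12 (inj (e1.trans e2.symm))
      · exact n1 (inj (e3.trans e1.symm))
      · exact n2 (inj (e3.trans e2.symm))
      · exact n2 (inj (e3.trans e2.symm))
      · exact n1 (inj (e3.trans e1.symm))
      · exact n12 (inj (e1.trans e2.symm))
      · exact n12 (inj (e1.trans e2.symm))
    rcases ha with h | h | h | h | h | h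
    · exact absurd h (three y1 N1)
    · exact absurd h (three y2 N2)
    · exact absurd (h ▸ (adj.2 h1).symm) (N3 _ M1)
    · exact absurd (h ▸ (adj.2 h1).symm) (N4 _ M1)
    · exact Or.inl h
    · exact Or.inr h
  have Du := D u v hu1 hu2 huv hv1.ne hv2.ne Mu Mv
  have Dv := D v u hv1 hv2 huv.symm hu1.ne hu2.ne Mv Mu
  have huv' : (φ u = s ∧ φ v = t) ∨ (φ u = t ∧ φ v = s) := by
    rcases Du with h | h <;> rcases Dv with h' | h'
    · exact absurd (inj (h.trans h'.symm)) huv.ne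
    · exact Or.inl ⟨h, h'⟩
    · exact Or.inr ⟨h, h'⟩
    · exact absurd (inj (h.trans h'.symm)) huv.ne
  -- the vertices of degree two
  have T : ∀ a, G.Adj u a → G.Adj v a →
      (φ a = y1 ∨ φ a = y2 ∨ φ a = y3 ∨ φ a = y4 ∨ φ a = s ∨ φ a = t) →
      (φ a = y1 ∨ φ a = y2) := by
    intro a h1 h2 ha
    rcases ha with h | h | h | h | h | h
    · exact Or.inl h
    · exact Or.inr h
    · exact absurd (h ▸ adj.2 h1) (N3 _ Mu)
    · exact absurd (h ▸ adj.2 h1) (N4 _ Mu)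
    · rcases huv' with ⟨h', -⟩ | ⟨-, h'⟩
      · exact absurd (inj (h'.trans h.symm)) h1.ne
      · exact absurd (inj (h'.trans h.symm)) h2.ne
    · rcases huv' with ⟨-, h'⟩ | ⟨h', -⟩
      · exact absurd (inj (h'.trans h.symm)) h2.ne
      · exact absurd (inj (h'.trans h.symm)) h1.ne
  have T1 := T x1 hu1 hv1 M1
  have T2 := T x2 hu2 hv2 M2
  have I3 := I x3 (Or.inl rfl)
  have I4 := I x4 (Or.inr rfl)
  have hKφ : K [φ x1, φ x2, φ x3, φ x4] := by
    have := hm.gl.img φ _ hK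
    simpa using this
  have hndφ := hm.gl.nodup _ hKφ
  have n12 : φ x1 ≠ φ x2 := by
    intro h; simp [h] at hndφ
  have n34 : φ x3 ≠ φ x4 := by
    intro h; simp [h] at hndφ
  have hperm : [φ x1, φ x2, φ x3, φ x4].Perm [y1, y2, y3, y4] := by
    rcases T1 with a1 | a1 <;> rcases T2 with a2 | a2 <;> rcases I3 with a3 | a3 <;>
      rcases I4 with a4 | a4 <;>
      first
      | exact absurd (a1.trans a2.symm) n12
      | exact absurd (a3.trans a4.symm) n34
      | (rw [a1, a2, a3, a4])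
    · exact ((List.Perm.swap _ _ _).cons _).cons _
    · exact List.Perm.swap _ _ _
    · exact (List.Perm.swap _ _ _).trans (((List.Perm.swap _ _ _).cons _).cons _)
  have hne14 : y1 ≠ y4 := by
    intro h; simp [h] at YN
  have hne24 : y2 ≠ y4 := by
    intro h; simp [h] at YN
  rcases hm.uq _ _ hK' hKφ hperm (by simp) with h | h
  · simp only [List.cons.injEq, and_true] at h
    exact ⟨φ, h.1, h.2.1, h.2.2.1, h.2.2.2, huv'⟩
  · exfalso
    simp only [List.reverse_cons, List.reverse_nil, List.nil_append, List.cons_append,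
      List.cons.injEq, and_true] at h
    rcases T1 with a1 | a1
    · exact hne14 (a1.symm.trans h.1)
    · exact hne24 (a1.symm.trans h.1)

/-- module FSk -/
theorem opt1_false (hm : MC G K) (h1 : Opt1 G K) : False := by
  obtain ⟨y1, y2, y3, y4, s, t, z, hK', hst, hs1, hs2, ht1, ht2, hs3, hs4, ht3, ht4, hz, hKs, hKt⟩ :=
    fsk_step1 hm h1
  obtain ⟨x1, x2, x3, x4, u, v, w, hK, huv, hu1, hu2, hv1, hv2, hu3, hu4, hv3, hv4, hwu, hwv⟩ :=
    fsk_step2 hm h1
  have hK4 : K [x1, x2, x3, x4] := hm.gl.sub _ _ hK (by simp)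
  obtain ⟨φ, e1, e2, e3, e4, hφ⟩ := fsk_step3 hm hK4 huv hu1 hu2 hv1 hv2 hu3 hu4 hv3 hv4
    hK' hst hs1 hs2 ht1 ht2 hs3 hs4 ht3 ht4
  have hKφ : K [y1, y2, φ w, y3, y4] := by
    have := hm.gl.img φ _ hK
    simpa [e1, e2, e3, e4] using this
  -- the last step, for `z' = φ w` with `z' ≁ s`, `z' ~ t`
  have key : ∀ s t : V, G.Adj s y1 → G.Adj s y2 → ¬ G.Adj s y3 → ¬ G.Adj t y3 →
      K [s, z, y3, y4] → K [t, z, y3, y4] → ¬ G.Adj (φ w) s → G.Adj (φ w) t → False := by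
    intro s t hs1 hs2 hs3 ht3 hKs hKt hws hwt
    have hind := hm.gl.ind _ hKφ
    have hnd := hm.gl.nodup _ hKφ
    have hindt := hm.gl.ind _ hKt
    have hnds := hm.gl.nodup _ hKs
    have w3 : ¬ G.Adj (φ w) y3 := hind _ (by simp) _ (by simp)
    have w4 : ¬ G.Adj (φ w) y4 := hind _ (by simp) _ (by simp)
    have w2 : ¬ G.Adj y2 (φ w) := hind _ (by simp) _ (by simp)
    have y23 : ¬ G.Adj y2 y3 := hind _ (by simp) _ (by simp)
    have n3 : φ w ≠ y3 := by
      intro h; simp [h] at hnd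
    have n4 : φ w ≠ y4 := by
      intro h; simp [h] at hnd
    have n34 : y3 ≠ y4 := by
      intro h; simp [h] at hnd
    have wz : ¬ G.Adj (φ w) z := by
      intro h
      exact (hm.mono _ _ _ (φ w) (hm.gl.sub _ _ hKs (by simp) : K [s, z, y3])).2 ⟨hws, h, w3⟩
    have nz : φ w ≠ z := by
      rintro h
      rw [h] at w2
      exact w2 hz.symm
    have ns : φ w ≠ s := by
      rintro h
      rw [h] at w2
      exact w2 hs2.symm
    have hKw : K [φ w, y3, y4] := hm.gl.sub _ _ hKφ (by simp)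
    obtain ⟨p, q, hpq, hKpq⟩ := hm.ins [s, z, y3, y4] (φ w) hKs (by simp)
      (by simp [n3, n4, nz, ns]) (by simp [hws, wz, w3, w4])
    match p, hpq, hKpq with
    | [], hpq, hKpq =>
      simp only [List.nil_append] at hpq
      subst hpq
      exact (hm.mono _ _ _ y2 (hm.gl.sub _ _ hKpq (by simp) : K [φ w, s, y3])).2
        ⟨w2, hs2.symm, y23⟩
    | [a], hpq, hKpq =>
      simp only [List.cons_append, List.nil_append, List.cons.injEq] at hpq
      obtain ⟨rfl, rfl⟩ := hpq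
      exact (hm.mono _ _ _ y2 (hm.gl.sub _ _ hKpq (by simp) : K [s, φ w, z])).1
        ⟨hs2.symm, w2, hz.symm⟩
    | [a, b], hpq, hKpq =>
      simp only [List.cons_append, List.nil_append, List.cons.injEq] at hpq
      obtain ⟨rfl, rfl, rfl⟩ := hpq
      exact (hm.mono _ _ _ t (hm.gl.sub _ _ hKpq (by simp) : K [z, φ w, y3])).2
        ⟨hindt _ (by simp) _ (by simp), hwt.symm, ht3⟩
    | [a, b, c], hpq, hKpq =>
      simp only [List.cons_append, List.nil_append, List.cons.injEq] at hpq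
      obtain ⟨rfl, rfl, rfl, rfl⟩ := hpq
      have hK3 : K [y3, φ w, y4] := hm.gl.sub _ _ hKpq (by simp)
      have hperm : [y3, φ w, y4].Perm [φ w, y3, y4] := List.Perm.swap _ _ _
      rcases hm.uq _ _ hKw hK3 hperm (by simp) with h | h
      · simp only [List.cons.injEq] at h
        exact n3 h.1.symm
      · simp only [List.reverse_cons, List.reverse_nil, List.nil_append, List.cons_append,
          List.cons.injEq] at h
        exact n34 h.1
    | [a, b, c, d], hpq, hKpq =>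
      simp only [List.cons_append, List.nil_append, List.cons.injEq] at hpq
      obtain ⟨rfl, rfl, rfl, rfl, rfl⟩ := hpq
      have hK3 : K [y3, y4, φ w] := hm.gl.sub _ _ hKpq (by simp)
      have hperm : [y3, y4, φ w].Perm [φ w, y3, y4] :=
        (List.perm_append_comm (l₁ := [y3, y4]) (l₂ := [φ w]))
      rcases hm.uq _ _ hKw hK3 hperm (by simp) with h | h
      · simp only [List.cons.injEq] at h
        exact n3 h.1.symm
      · simp only [List.reverse_cons, List.reverse_nil, List.nil_append, List.cons_append,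
          List.cons.injEq] at h
        exact n34 h.1
    | a :: b :: c :: d :: e :: p, hpq, _ =>
      have := congrArg List.length hpq
      simp at this
  rcases hφ with ⟨eu, ev⟩ | ⟨eu, ev⟩
  · refine key s t hs1 hs2 hs3 ht3 hKs hKt ?_ ?_
    · rw [← eu]
      exact fun h => hwu (φ.map_adj_iff.1 h)
    · rw [← ev]
      exact φ.map_adj_iff.2 hwv
  · refine key t s ht1 ht2 ht3 hs3 hKt hKs ?_ ?_
    · rw [← eu]
      exact fun h => hwu (φ.map_adj_iff.1 h)
    · rw [← ev]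
      exact φ.map_adj_iff.2 hwv

end FS
end SetHom
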