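import Pool.Agent.Helper61.RC.QSt

/-!
# Project RC, SHARP, zone I: (Q), the weighted rest of the sections satisfies `RestC`
-/

set_option autoImplicit false

open MeasureTheory Set Filter Topology

namespace Pool.Agent.Helper62.SH

open Helper49.LT hiding sg s3
open Helper49.Sharp
open Helper56.RC (fc)
open Helper95.SH (Dat SN)
open Pool.Agent.Helper20.RC (wR)
open Pool.Agent.Helper43.SH
open Pool.Agent.Helper33.SH
open Pool.Agent.Helper61.RC.QC

theorem cont_eec (c : ℝ) : Continuous fun t : ℝ => ee (c * t) :=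
  continuous_ee.comp (continuous_const.mul continuous_id)

theorem cont_wR (η2 η6 η10 : ℂ) : Continuous (wR η2 η6 η10) := by
  unfold wR
  refine continuous_const.add (continuous_const.mul (Complex.continuous_re.comp ?_))
  exact ((continuous_const.mul (cont_eec 2)).add (continuous_const.mul (cont_eec 6))).add
    (continuous_const.mul (cont_eec 10))

theorem cont_SN (N : ℕ) (f : ℝ → ℂ) : Continuous (SN N f) := by
  unfold Helper95.SH.SN Helper95.RC.tp
  exact continuous_finsetSum _ fun m _ => continuous_const.mul (cont_eec _)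

theorem cont_wd {w : ℝ → ℝ} {f g : ℝ → ℂ} (hw : Continuous w) (hf : Continuous f) (hg : Continuous g) :
    Continuous (wd w f g) := by
  unfold wd
  exact (Complex.continuous_ofReal.comp hw).mul (hf.sub hg)

section

variable {A : ℝ} {B : ℂ} {b z : ℝ → ℂ} {N : ℕ}

theorem cont_beR (A : ℝ) (B : ℂ) (N : ℕ) (b : ℝ → ℂ) : Continuous (beR A B N b) :=
  cont_wd (cont_wR _ _ _) (cont_SN N b) (continuous_bB _ _ _)

theorem cont_rhR (A : ℝ) (B : ℂ) (N : ℕ) (z : ℝ → ℂ) : Continuous (rhR A B N z) :=
  cont_wd (cont_wR _ _ _) (cont_SN N z) (continuous_zB _ _)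

/-- **THE WEIGHTED REST OF THE SECTIONS SATISFIES `RestC`** -/
theorem restC_PZ (hZ : |A| + 2 * ‖B‖ ≤ 1 / 4) (d : Dat b z) (hN : 10 ≤ N) :
    RestC (beR A B N b) (rhR A B N z) (N + 2) (xR A B N b) (yR A B N b) (tR A B N z) :=
  { rest_PZ hZ d hN with
    kb := cont_beR A B N b
    kz := cont_rhR A B N z
    pb := fun t => be_pi hZ d t
    pz := fun t => rh_pi hZ d t }

/-- the same in the radius of the contract -/
theorem restC_PZ12 (hA : 0 ≤ A) (hz : A + 8 / 5 * ‖B‖ ≤ 1 / 12) (d : Dat b z) (hN : 10 ≤ N) :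
    RestC (beR A B N b) (rhR A B N z) (N + 2) (xR A B N b) (yR A B N b) (tR A B N z) :=
  restC_PZ (hZ12 hA hz) d hN

end

end Pool.Agent.Helper62.SH
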